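import Pool.Agent.Q75.IS.Stm

/-!
Project IS (helper75): jobs EBM, SRC and MAXE.
-/

set_option autoImplicit false

open Finset

namespace Pool.Agent.Q53.IS

open Pool.Agent.Q75.IS

theorem Eb_two (ρ : ℕ → ℝ) (g : Finset ℕ → ℝ) : Eb ρ 2 g = g ∅ := by
  unfold Eb
  simp

theorem ebm_aux (ρ : ℕ → ℝ) (M : ℕ) (hM : 2 ≤ M) :
    ∀ i : ℕ, i ≤ M →
    Eb ρ M (fun D => ((D.filter (fun j => j < i)).card : ℝ)) = ∑ j ∈ Ico 2 i, ρ j ∧
    Eb ρ M (fun D => (((D.filter (fun j => j < i)).card : ℝ) - ∑ j ∈ Ico 2 i, ρ j) ^ 2)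
      ≤ ∑ j ∈ Ico 2 i, ρ j := by
  induction M, hM using Nat.le_induction with
  | base =>
    intro i hi
    have h1 : Ico 2 i = ∅ := Ico_eq_empty (by omega)
    rw [Eb_two, Eb_two, h1]
    simp
  | succ M hM ih =>
    intro i hi
    rw [Eb_succ hM, Eb_succ hM]
    rcases Nat.lt_or_ge M i with h | h
    · have hiM : i = M + 1 := by omega
      subst hiM
      obtain ⟨e1, e2⟩ := ih M le_rfl
      have hc1 : ∀ D ⊆ Ico 2 M, ((insert M D).filter (fun j => j < M + 1)).card = D.card + 1 := by
        intro D hD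
        have hMD : M ∉ D := fun hm => by
          have := mem_Ico.1 (hD hm)
          omega
        rw [filter_true_of_mem, card_insert_of_notMem hMD]
        intro j hj
        rcases mem_insert.1 hj with h' | h'
        · omega
        · have := mem_Ico.1 (hD h')
          omega
      have hc2 : ∀ D ⊆ Ico 2 M, (D.filter (fun j => j < M + 1)).card = D.card := by
        intro D hD
        rw [filter_true_of_mem]
        intro j hj
        have := mem_Ico.1 (hD hj)
        omega
      have hc3 : ∀ D ⊆ Ico 2 M, (D.filter (fun j => j < M)).card = D.card := by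
        intro D hD
        rw [filter_true_of_mem]
        intro j hj
        exact (mem_Ico.1 (hD hj)).2
      set S := ∑ j ∈ Ico 2 M, ρ j with hS
      have hs : ∑ j ∈ Ico 2 (M + 1), ρ j = S + ρ M := sum_Ico_succ_top hM ρ
      have m1 : Eb ρ M (fun D => (D.card : ℝ)) = S := by
        rw [← e1]
        exact Eb_congr fun D hD => by rw [hc3 D hD]
      have v1 : Eb ρ M (fun D => ((D.card : ℝ) - S) ^ 2) ≤ S := by
        refine le_trans (le_of_eq ?_) e2
        exact Eb_congr fun D hD => by rw [hc3 D hD]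
      rw [hs]
      constructor
      · have a1 : Eb ρ M (fun D => (((insert M D).filter (fun j => j < M + 1)).card : ℝ)) =
            S + 1 := by
          rw [Eb_congr (h := fun D => (D.card : ℝ) + 1) fun D hD => by
            rw [hc1 D hD]; push_cast; rfl]
          rw [Eb_add (fun D => (D.card : ℝ)) (fun _ => 1), m1, Eb_const]
        have a2 : Eb ρ M (fun D => ((D.filter (fun j => j < M + 1)).card : ℝ)) = S := by
          rw [Eb_congr (h := fun D => (D.card : ℝ)) fun D hD => by rw [hc2 D hD]]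
          exact m1
        rw [a1, a2]
        ring
      · have hz : Eb ρ M (fun D => (D.card : ℝ) - S) = 0 := by
          rw [Eb_sub (fun D => (D.card : ℝ)) (fun _ => S), m1, Eb_const, sub_self]
        have gen : ∀ c : ℝ, Eb ρ M (fun D => ((D.card : ℝ) - S + c) ^ 2) =
            Eb ρ M (fun D => ((D.card : ℝ) - S) ^ 2) + c ^ 2 := by
          intro c
          have e3 : (fun D : Finset ℕ => ((D.card : ℝ) - S + c) ^ 2) =
              fun D => ((D.card : ℝ) - S) ^ 2 + ((2 * c) * ((D.card : ℝ) - S) + c ^ 2) := by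
            funext D; ring
          rw [e3, Eb_add (fun D => ((D.card : ℝ) - S) ^ 2)
            (fun D => (2 * c) * ((D.card : ℝ) - S) + c ^ 2),
            Eb_add (fun D => (2 * c) * ((D.card : ℝ) - S)) (fun _ => c ^ 2),
            Eb_mul (2 * c) (fun D => (D.card : ℝ) - S), hz, Eb_const]
          ring
        have a1 : Eb ρ M (fun D => ((((insert M D).filter (fun j => j < M + 1)).card : ℝ) -
            (S + ρ M)) ^ 2) = Eb ρ M (fun D => ((D.card : ℝ) - S) ^ 2) + (1 - ρ M) ^ 2 := by
          rw [← gen]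
          refine Eb_congr fun D hD => ?_
          rw [hc1 D hD]
          push_cast
          ring
        have a2 : Eb ρ M (fun D => (((D.filter (fun j => j < M + 1)).card : ℝ) -
            (S + ρ M)) ^ 2) = Eb ρ M (fun D => ((D.card : ℝ) - S) ^ 2) + (- ρ M) ^ 2 := by
          rw [← gen]
          refine Eb_congr fun D hD => ?_
          rw [hc2 D hD]
          ring
        rw [a1, a2]
        nlinarith [sq_nonneg (ρ M)]
    · obtain ⟨e1, e2⟩ := ih i h
      have hf : ∀ D : Finset ℕ, (insert M D).filter (fun j => j < i) =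
          D.filter (fun j => j < i) := by
        intro D
        rw [filter_insert, if_neg (by omega)]
      simp only [hf]
      constructor
      · rw [e1]; ring
      · have : ∀ x : ℝ, ρ M * x + (1 - ρ M) * x = x := fun x => by ring
        rw [this]
        exact e2

/-- **Job EBM.** -/
theorem t_EBM : S_EBM := fun ρ M i _ _ hM hi => ebm_aux ρ M hM i hi

section src

variable {P : ℕ → ℝ} {M : ℕ}

theorem count_cons2 (e : ℕ) (v : List ℕ) :
    ((e :: v).count 1 : ℝ) = (v.count 1 : ℝ) + if e = 1 then 1 else 0 := by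
  rw [List.count_cons]
  by_cases h : e = 1
  · simp [h]
  · simp [h]

theorem sum_ind (hP : Law P M) (F : ℝ → ℝ) :
    ∑ e ∈ range M, P e * F (if e = 1 then 1 else 0) = P 1 * F 1 + (1 - P 1) * F 0 := by
  have h1 : ∀ e ∈ range M, P e * F (if e = 1 then 1 else 0) =
      P e * F 0 + (if e = 1 then P e * (F 1 - F 0) else 0) := by
    intro e _
    split_ifs <;> ring
  rw [sum_congr rfl h1, sum_add_distrib, ← sum_mul, hP.sum, sum_ite_eq' (range M) 1
    (fun e => P e * (F 1 - F 0)), if_pos]
  · ring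
  · have := hP.two
    rw [mem_range]
    omega

theorem src_mean (hP : Law P M) (s : ℕ) : Ex P M s (fun w => (w.count 1 : ℝ)) = P 1 * s := by
  induction s with
  | zero => rw [Ex_zero]; simp
  | succ s ih =>
    rw [Ex_succ]
    have h1 : ∀ e ∈ range M, P e * Ex P M s (fun w => ((e :: w).count 1 : ℝ)) =
        P e * (fun x => P 1 * s + x) (if e = 1 then (1 : ℝ) else 0) := by
      intro e _
      have : (fun w : List ℕ => ((e :: w).count 1 : ℝ)) =
          fun w => (w.count 1 : ℝ) + if e = 1 then 1 else 0 := by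
        funext w; exact count_cons2 e w
      rw [this, Ex_add s (fun w => (w.count 1 : ℝ)) (fun _ => if e = 1 then (1 : ℝ) else 0), ih,
        Ex_const hP]
    have h2 := sum_ind hP (fun x => P 1 * s + x)
    rw [sum_congr rfl h1, h2]
    push_cast
    ring

theorem src_var (hP : Law P M) (s : ℕ) :
    Ex P M s (fun w => ((w.count 1 : ℝ) - P 1 * s) ^ 2) ≤ P 1 * s := by
  induction s with
  | zero => rw [Ex_zero]; simp
  | succ s ih =>
    rw [Ex_succ]
    set V := Ex P M s (fun w => ((w.count 1 : ℝ) - P 1 * s) ^ 2) with hV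
    have hz : Ex P M s (fun w => (w.count 1 : ℝ) - P 1 * s) = 0 := by
      rw [Ex_sub s (fun w => (w.count 1 : ℝ)) (fun _ => P 1 * s), src_mean hP, Ex_const hP,
        sub_self]
    have h1 : ∀ e ∈ range M, P e * Ex P M s (fun w => (((e :: w).count 1 : ℝ) -
        P 1 * ((s + 1 : ℕ) : ℝ)) ^ 2) =
        P e * (fun x => V + (x - P 1) ^ 2) (if e = 1 then (1 : ℝ) else 0) := by
      intro e _
      set d : ℝ := (if e = 1 then (1 : ℝ) else 0) - P 1 with hd
      have : (fun w : List ℕ => (((e :: w).count 1 : ℝ) - P 1 * ((s + 1 : ℕ) : ℝ)) ^ 2) =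
          fun w => ((w.count 1 : ℝ) - P 1 * s) ^ 2 +
            ((2 * d) * ((w.count 1 : ℝ) - P 1 * s) + d ^ 2) := by
        funext w
        rw [count_cons2, hd]
        push_cast
        ring
      rw [this, Ex_add s (fun w => ((w.count 1 : ℝ) - P 1 * s) ^ 2)
        (fun w => (2 * d) * ((w.count 1 : ℝ) - P 1 * s) + d ^ 2),
        Ex_add s (fun w => (2 * d) * ((w.count 1 : ℝ) - P 1 * s)) (fun _ => d ^ 2),
        Ex_mul s (2 * d) (fun w => (w.count 1 : ℝ) - P 1 * s), hz, Ex_const hP]
      ring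
    have h2 := sum_ind hP (fun x => V + (x - P 1) ^ 2)
    rw [sum_congr rfl h1, h2]
    have := hP.nonneg 1
    push_cast
    nlinarith [sq_nonneg (P 1)]

end src

/-- **Job SRC.** -/
theorem t_SRC : S_SRC := by
  intro P M hP s N hs
  obtain ⟨k, rfl⟩ := Nat.exists_eq_add_of_le hs
  refine ⟨fun g => ?_, fun g => ?_, src_mean hP s, src_var hP s⟩
  · rw [Ex_append]
    refine Ex_congr s fun u hu _ => ?_
    have : (fun v : List ℕ => g ((u ++ v).take s)) = fun _ => g u := by
      funext v
      rw [← hu, List.take_left']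
      rfl
    rw [this, Ex_const hP]
  · rw [Ex_append, Nat.add_sub_cancel_left]
    have : Ex P M s (fun u => Ex P M k (fun v => g ((u ++ v).drop s))) =
        Ex P M s (fun _ => Ex P M k g) := by
      refine Ex_congr s fun u hu _ => ?_
      congr 1
      funext v
      rw [← hu, List.drop_left']
      rfl
    rw [this, Ex_const hP]

/-- **Job MAXE.** -/
theorem t_MAXE : S_MAXE := by
  intro ρ P M N T Z c v C W hP h0 h1 hv hvar hc hW
  have bound : ∀ τ : ℝ, 0 < τ → Eb ρ M (fun D => Ex P M N (fun w => W D w)) ≤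
      C + T.card * v / (2 * τ) + τ / 2 := by
    intro τ hτ
    have hp : ∀ D ⊆ Ico 2 M, Ex P M N (fun w => W D w) ≤
        C + τ / 2 + 1 / (2 * τ) * ∑ t ∈ T, Ex P M N (fun w => (Z t D w - c t) ^ 2) := by
      intro D hD
      have e1 : C + τ / 2 + 1 / (2 * τ) * ∑ t ∈ T, Ex P M N (fun w => (Z t D w - c t) ^ 2) =
          Ex P M N (fun w => (C + τ / 2) + 1 / (2 * τ) * ∑ t ∈ T, (Z t D w - c t) ^ 2) := by
        rw [Ex_add N (fun _ => C + τ / 2) (fun w => 1 / (2 * τ) * ∑ t ∈ T, (Z t D w - c t) ^ 2),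
          Ex_const hP, Ex_mul, Ex_sum]
      rw [e1]
      refine Ex_mono hP.nonneg N fun w hw hl => ?_
      obtain ⟨t, ht, hle⟩ := hW D hD w hw hl
      have e2 : (Z t D w - c t) ^ 2 ≤ ∑ t ∈ T, (Z t D w - c t) ^ 2 :=
        single_le_sum (f := fun t => (Z t D w - c t) ^ 2) (fun t _ => sq_nonneg _) ht
      have e3 : Z t D w - c t ≤ 1 / (2 * τ) * (Z t D w - c t) ^ 2 + τ / 2 := by
        have : 1 / (2 * τ) * (Z t D w - c t) ^ 2 + τ / 2 - (Z t D w - c t) =
            (Z t D w - c t - τ) ^ 2 / (2 * τ) := by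
          field_simp
          ring
        have h2 : 0 ≤ (Z t D w - c t - τ) ^ 2 / (2 * τ) := by positivity
        linarith
      have e4 : 1 / (2 * τ) * (Z t D w - c t) ^ 2 ≤
          1 / (2 * τ) * ∑ t ∈ T, (Z t D w - c t) ^ 2 :=
        mul_le_mul_of_nonneg_left e2 (by positivity)
      have e5 := hc t ht
      linarith
    refine (Eb_mono h0 h1 hp).trans ?_
    rw [Eb_add (fun _ => C + τ / 2)
      (fun D => 1 / (2 * τ) * ∑ t ∈ T, Ex P M N (fun w => (Z t D w - c t) ^ 2)), Eb_const,
      Eb_mul (1 / (2 * τ)) (fun D => ∑ t ∈ T, Ex P M N (fun w => (Z t D w - c t) ^ 2))]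
    have e6 : Eb ρ M (fun D => ∑ t ∈ T, Ex P M N (fun w => (Z t D w - c t) ^ 2)) =
        ∑ t ∈ T, Eb ρ M (fun D => Ex P M N (fun w => (Z t D w - c t) ^ 2)) := by
      unfold Eb
      rw [sum_comm]
      refine sum_congr rfl fun D _ => ?_
      rw [mul_sum]
    rw [e6]
    have e7 : ∑ t ∈ T, Eb ρ M (fun D => Ex P M N (fun w => (Z t D w - c t) ^ 2)) ≤
        T.card * v := by
      refine (sum_le_sum hvar).trans ?_
      rw [sum_const, nsmul_eq_mul]
    have e8 : 1 / (2 * τ) * ∑ t ∈ T, Eb ρ M (fun D => Ex P M N (fun w => (Z t D w - c t) ^ 2)) ≤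
        1 / (2 * τ) * (T.card * v) := mul_le_mul_of_nonneg_left e7 (by positivity)
    have e9 : 1 / (2 * τ) * ((T.card : ℝ) * v) = T.card * v / (2 * τ) := by ring
    linarith
  have hV : 0 ≤ (T.card : ℝ) * v := by positivity
  rcases hV.lt_or_eq with h | h
  · have hs := Real.sqrt_pos.2 h
    refine (bound _ hs).trans (le_of_eq ?_)
    have h2 := Real.mul_self_sqrt hV
    have h3 : (T.card : ℝ) * v / (2 * Real.sqrt (T.card * v)) = Real.sqrt (T.card * v) / 2 := by
      rw [div_eq_div_iff (by positivity) (by norm_num)]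
      nlinarith
    rw [h3]
    ring
  · rw [← h, Real.sqrt_zero, add_zero]
    apply le_of_forall_pos_le_add
    intro ε hε
    have := bound ε hε
    rw [← h, zero_div, add_zero] at this
    linarith

end Pool.Agent.Q53.IS
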