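import Pool.Agent.Q75.IS.Stm

/-!
Project IS (helper75): jobs GRE and GE.
-/

set_option autoImplicit false

open Finset

namespace Pool.Agent.Q53.IS

open Pool.Agent.Q75.IS

/-- The martingale of the greedy collection of the letters `js`. -/
noncomputable def ZZ (P : ℕ → ℝ) : List ℕ → List ℕ → ℝ
  | [], _ => 0
  | (_ :: _), [] => 0
  | (j :: js), (e :: w) => if e = j then 1 / P j - 1 + ZZ P js w else -1 + ZZ P (j :: js) w

theorem ZZ_nil (P : ℕ → ℝ) (w : List ℕ) : ZZ P [] w = 0 := by
  cases w <;> rfl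

theorem ZZ_nil' (P : ℕ → ℝ) (js : List ℕ) : ZZ P js [] = 0 := by
  cases js <;> rfl

theorem ZZ_eq (P : ℕ → ℝ) (j : ℕ) (js w : List ℕ) :
    ZZ P (j :: js) (j :: w) = 1 / P j - 1 + ZZ P js w := by
  simp [ZZ]

theorem ZZ_ne (P : ℕ → ℝ) {e j : ℕ} (h : e ≠ j) (js w : List ℕ) :
    ZZ P (j :: js) (e :: w) = -1 + ZZ P (j :: js) w := by
  simp [ZZ, h]

theorem ZZ_sq {P : ℕ → ℝ} {M : ℕ} {B : ℝ} (hP : Law P M) (hB : 0 ≤ B) (n : ℕ) :
    ∀ (js : List ℕ) (c : ℝ), (∀ j ∈ js, j < M ∧ 0 < P j ∧ 1 / P j ≤ B) →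
    Ex P M n (fun w => (c + ZZ P js w) ^ 2) ≤ c ^ 2 + n * B := by
  induction n with
  | zero =>
    intro js c _
    rw [Ex_zero, ZZ_nil']
    simp
  | succ n ih =>
    intro js c hjs
    cases js with
    | nil =>
      have : (fun w : List ℕ => (c + ZZ P [] w) ^ 2) = fun _ => c ^ 2 := by
        funext w
        rw [ZZ_nil, add_zero]
      rw [this, Ex_const hP]
      have : 0 ≤ ((n + 1 : ℕ) : ℝ) * B := by positivity
      linarith
    | cons j js =>
      obtain ⟨hjM, hj0, hjB⟩ := hjs j (by simp)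
      have hjs' : ∀ i ∈ js, i < M ∧ 0 < P i ∧ 1 / P i ≤ B := fun i hi => hjs i (by simp [hi])
      rw [Ex_succ]
      set X := Ex P M n (fun w => ((c + 1 / P j - 1) + ZZ P js w) ^ 2) with hX
      set Y := Ex P M n (fun w => ((c - 1) + ZZ P (j :: js) w) ^ 2) with hY
      have h1 : ∀ e ∈ range M, P e * Ex P M n (fun w => (c + ZZ P (j :: js) (e :: w)) ^ 2) =
          P e * Y + (if e = j then P e * (X - Y) else 0) := by
        intro e _
        by_cases he : e = j
        · subst he
          rw [if_pos rfl]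
          have : (fun w : List ℕ => (c + ZZ P (e :: js) (e :: w)) ^ 2) =
              fun w => ((c + 1 / P e - 1) + ZZ P js w) ^ 2 := by
            funext w
            rw [ZZ_eq]
            ring
          rw [this]
          ring
        · rw [if_neg he]
          have : (fun w : List ℕ => (c + ZZ P (j :: js) (e :: w)) ^ 2) =
              fun w => ((c - 1) + ZZ P (j :: js) w) ^ 2 := by
            funext w
            rw [ZZ_ne P he]
            ring
          rw [this]
          ring
      rw [sum_congr rfl h1, sum_add_distrib, ← sum_mul, hP.sum, one_mul,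
        sum_ite_eq' (range M) j (fun e => P e * (X - Y)), if_pos (mem_range.2 hjM)]
      have hXb := ih js (c + 1 / P j - 1) hjs'
      have hYb := ih (j :: js) (c - 1) hjs
      rw [← hX] at hXb
      rw [← hY] at hYb
      have hp1 : P j ≤ 1 := by
        rw [← hP.sum]
        exact single_le_sum (f := P) (fun e _ => hP.nonneg e) (mem_range.2 hjM)
      have h2 : Y + P j * (X - Y) = P j * X + (1 - P j) * Y := by ring
      rw [h2]
      have h3 : P j * X ≤ P j * ((c + 1 / P j - 1) ^ 2 + n * B) :=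
        mul_le_mul_of_nonneg_left hXb hj0.le
      have h4 : (1 - P j) * Y ≤ (1 - P j) * ((c - 1) ^ 2 + n * B) :=
        mul_le_mul_of_nonneg_left hYb (by linarith)
      have h5 : P j * ((c + 1 / P j - 1) ^ 2 + n * B) + (1 - P j) * ((c - 1) ^ 2 + n * B) =
          c ^ 2 + n * B + (1 / P j - 1) := by
        field_simp
        ring
      push_cast
      linarith

theorem ZZ_le {P : ℕ → ℝ} (w : List ℕ) : ∀ js : List ℕ, (∀ j ∈ js, 0 < P j) →
    ¬ js.Sublist w → ZZ P js w ≤ (js.map (fun j => 1 / P j)).sum - w.length := by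
  induction w with
  | nil =>
    intro js hjs _
    rw [ZZ_nil']
    have : 0 ≤ (js.map (fun j => 1 / P j)).sum := by
      refine List.sum_nonneg ?_
      intro x hx
      rw [List.mem_map] at hx
      obtain ⟨j, hj, rfl⟩ := hx
      have := hjs j hj
      positivity
    simpa using this
  | cons e w ih =>
    intro js hjs hn
    cases js with
    | nil => exact absurd (List.nil_sublist _) hn
    | cons j js =>
      by_cases he : e = j
      · subst he
        rw [ZZ_eq]
        have h1 := ih js (fun i hi => hjs i (by simp [hi])) fun h => hn (h.cons_cons e)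
        rw [List.map_cons, List.sum_cons, List.length_cons]
        push_cast
        linarith
      · rw [ZZ_ne P he]
        have h1 := ih (j :: js) hjs fun h => hn (h.cons e)
        rw [List.length_cons]
        push_cast
        linarith

/-- **Job GRE.** -/
theorem t_GRE : S_GRE := by
  intro P M n js B hP hB hjs hsum
  set sg := (js.map (fun j => 1 / P j)).sum with hsg
  have hd : 0 < (n : ℝ) - sg := by linarith
  have h1 := ZZ_sq hP hB n js 0 hjs
  have h2 : Ex P M n (fun w => 1 - 1 / ((n : ℝ) - sg) ^ 2 * (0 + ZZ P js w) ^ 2) ≤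
      Ex P M n (fun w => if js.Sublist w then 1 else 0) := by
    refine Ex_mono hP.nonneg n fun w hw _ => ?_
    by_cases h : js.Sublist w
    · rw [if_pos h]
      have : 0 ≤ 1 / ((n : ℝ) - sg) ^ 2 * (0 + ZZ P js w) ^ 2 := by positivity
      linarith
    · rw [if_neg h]
      have h3 := ZZ_le w js (fun j hj => (hjs j hj).2.1) h
      rw [hw, ← hsg] at h3
      have h4 : ((n : ℝ) - sg) ^ 2 ≤ (0 + ZZ P js w) ^ 2 := by nlinarith
      have h5 : 1 ≤ 1 / ((n : ℝ) - sg) ^ 2 * (0 + ZZ P js w) ^ 2 := by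
        rw [one_div, inv_mul_eq_div, le_div_iff₀ (by positivity), one_mul]
        exact h4
      linarith
  refine le_trans ?_ h2
  rw [Ex_sub n (fun _ => (1 : ℝ)) (fun w => 1 / ((n : ℝ) - sg) ^ 2 * (0 + ZZ P js w) ^ 2),
    Ex_const hP, Ex_mul]
  have h3 : 1 / ((n : ℝ) - sg) ^ 2 * Ex P M n (fun w => (0 + ZZ P js w) ^ 2) ≤
      1 / ((n : ℝ) - sg) ^ 2 * (0 ^ 2 + n * B) := mul_le_mul_of_nonneg_left h1 (by positivity)
  have h4 : 1 / ((n : ℝ) - sg) ^ 2 * (0 ^ 2 + n * B) = n * B / ((n : ℝ) - sg) ^ 2 := by ring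
  linarith

theorem lis_app (v : List ℕ) (i : ℕ) (js : List ℕ) : ∀ c : ℕ, c ≤ i →
    js.Pairwise (fun a b => a < b) → (∀ j ∈ js, c ≤ j ∧ j < i) →
    js.length + lis i v ≤ lis c (js ++ v) := by
  induction js with
  | nil =>
    intro c hc _ _
    rw [List.length_nil, zero_add, List.nil_append]
    exact lis_anti hc v
  | cons j js ih =>
    intro c hc hp hj
    obtain ⟨hcj, hji⟩ := hj j (by simp)
    rw [List.cons_append, lis_cons_ge hcj, List.length_cons]
    rw [List.pairwise_cons] at hp
    have h1 := ih (j + 1) (by omega) hp.2 (fun k hk => by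
      have := hp.1 k hk
      have := (hj k (by simp [hk])).2
      omega)
    have h2 : 1 + lis (j + 1) (js ++ v) ≤ max (lis c (js ++ v)) (1 + lis (j + 1) (js ++ v)) :=
      le_max_right _ _
    omega

/-- **Job GE.** -/
theorem t_GE (h : S_GRE) : S_GE := by
  intro P M i r n J B hP hB hi hJ hsum
  set js := J.sort (· ≤ ·) with hjs
  have hmem : ∀ j, j ∈ js ↔ j ∈ J := fun j => by rw [hjs]; exact J.mem_sort (· ≤ ·)
  have hlen : js.length = J.card := by rw [hjs]; exact J.length_sort (· ≤ ·)
  have hpw : js.Pairwise (fun a b => a < b) := by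
    have h1 := J.sortedLT_sort
    exact h1.pairwise
  have hsumJ : (js.map (fun j => 1 / P j)).sum = ∑ j ∈ J, 1 / P j := by
    have hnd : js.Nodup := J.sort_nodup (· ≤ ·)
    have h1 := List.sum_toFinset (fun j => 1 / P j) hnd
    rw [← h1]
    congr 1
    ext j
    rw [List.mem_toFinset, hmem]
  have h1 := h P M r js B hP hB (fun j hj => by
    have := hJ j ((hmem j).1 hj)
    exact ⟨this.2.2.1, this.2.2.2.1, this.2.2.2.2⟩) (by rw [hsumJ]; exact hsum)
  rw [hsumJ] at h1
  unfold ell
  rw [Ex_append]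
  have h2 : Ex P M r (fun u => (J.card : ℝ) * (if js.Sublist u then 1 else 0) +
      Ex P M n (fun w => (lis i w : ℝ))) ≤
      Ex P M r (fun u => Ex P M n (fun v => (lis 2 (u ++ v) : ℝ))) := by
    refine Ex_mono hP.nonneg r fun u _ _ => ?_
    have e1 : (J.card : ℝ) * (if js.Sublist u then 1 else 0) + Ex P M n (fun w => (lis i w : ℝ)) =
        Ex P M n (fun w => (J.card : ℝ) * (if js.Sublist u then 1 else 0) + (lis i w : ℝ)) := by
      rw [Ex_add n (fun _ => (J.card : ℝ) * (if js.Sublist u then 1 else 0))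
        (fun w => (lis i w : ℝ)), Ex_const hP]
    rw [e1]
    refine Ex_mono hP.nonneg n fun v _ _ => ?_
    by_cases hs : js.Sublist u
    · rw [if_pos hs, mul_one]
      have e2 := lis_app v i js 2 hi hpw (fun j hj => by
        have := hJ j ((hmem j).1 hj)
        exact ⟨this.1, this.2.1⟩)
      have e3 : lis 2 (js ++ v) ≤ lis 2 (u ++ v) := lis_sublist (hs.append_right v) 2
      rw [hlen] at e2
      exact_mod_cast e2.trans e3
    · rw [if_neg hs, mul_zero, zero_add]
      have e2 : lis i v ≤ lis 2 v := lis_anti hi v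
      have e3 : lis 2 v ≤ lis 2 (u ++ v) := lis_sublist (List.sublist_append_right u v) 2
      exact_mod_cast e2.trans e3
  refine le_trans ?_ h2
  rw [Ex_add r (fun u => (J.card : ℝ) * (if js.Sublist u then 1 else 0))
    (fun _ => Ex P M n (fun w => (lis i w : ℝ))), Ex_const hP, Ex_mul]
  have h3 := mul_le_mul_of_nonneg_left h1 (Nat.cast_nonneg (α := ℝ) J.card)
  linarith

end Pool.Agent.Q53.IS
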