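import Pool.Agent.Q75.IS.Stm

/-!
Project IS (helper75): job INV.
-/

set_option autoImplicit false

open Finset

namespace Pool.Agent.Q53.IS

open Pool.Agent.Q75.IS

/-- The letters `≥ b` of a word. -/
def fb (b : ℕ) (w : List ℕ) : List ℕ := w.filter (fun x => decide (b ≤ x))

theorem fb_cons_ge {b x : ℕ} (h : b ≤ x) (w : List ℕ) : fb b (x :: w) = x :: fb b w := by
  unfold fb
  rw [List.filter_cons_of_pos]
  simpa using h

theorem fb_cons_lt {b x : ℕ} (h : x < b) (w : List ℕ) : fb b (x :: w) = fb b w := by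
  unfold fb
  rw [List.filter_cons_of_neg]
  simpa using h

theorem lis_fb (w : List ℕ) : ∀ b c : ℕ, b ≤ c → lis c (fb b w) = lis c w := by
  induction w with
  | nil => intro b c _; rfl
  | cons x w ih =>
    intro b c hbc
    by_cases hx : b ≤ x
    · rw [fb_cons_ge hx]
      by_cases hc : c ≤ x
      · rw [lis_cons_ge hc, lis_cons_ge hc, ih b c hbc, ih b (x + 1) (by omega)]
      · rw [lis_cons_lt (by omega), lis_cons_lt (by omega), ih b c hbc]
    · rw [fb_cons_lt (by omega), lis_cons_lt (by omega), ih b c hbc]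

theorem sum_split (f : ℕ → ℝ) {b M : ℕ} (hb : b ≤ M) :
    ∑ e ∈ range M, f e = ∑ e ∈ range b, f e + ∑ e ∈ Ico b M, f e := by
  rw [range_eq_Ico, range_eq_Ico]
  exact (sum_Ico_consecutive f (Nat.zero_le b) hb).symm

theorem Ex_fb {P P' : ℕ → ℝ} {M b : ℕ} (hP : Law P M) (hP' : Law P' M) (hb : b ≤ M)
    (h : ∀ i, b ≤ i → i < M → P i = P' i) (n : ℕ) : ∀ g : List ℕ → ℝ,
    Ex P M n (fun w => g (fb b w)) = Ex P' M n (fun w => g (fb b w)) := by
  induction n with
  | zero => intro g; rfl
  | succ n ih =>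
    intro g
    rw [Ex_succ, Ex_succ, sum_split _ hb, sum_split _ hb]
    have hI : ∑ e ∈ Ico b M, P e = ∑ e ∈ Ico b M, P' e :=
      sum_congr rfl fun e he => h e (mem_Ico.1 he).1 (mem_Ico.1 he).2
    have h1 : ∑ e ∈ range b, P e = ∑ e ∈ range b, P' e := by
      have e1 := hP.sum
      have e2 := hP'.sum
      rw [sum_split _ hb] at e1 e2
      linarith
    have h2 : ∀ R : ℕ → ℝ, ∑ e ∈ range b, R e * Ex R M n (fun w => g (fb b (e :: w))) =
        (∑ e ∈ range b, R e) * Ex R M n (fun w => g (fb b w)) := by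
      intro R
      rw [sum_mul]
      refine sum_congr rfl fun e he => ?_
      congr 1
      congr 1
      funext w
      rw [fb_cons_lt (mem_range.1 he)]
    rw [h2, h2, h1, ih g]
    congr 1
    refine sum_congr rfl fun e he => ?_
    have he' := mem_Ico.1 he
    rw [h e he'.1 he'.2]
    congr 1
    have e1 : ∀ R : ℕ → ℝ, Ex R M n (fun w => g (fb b (e :: w))) =
        Ex R M n (fun w => (fun u => g (e :: u)) (fb b w)) := by
      intro R
      congr 1
      funext w
      rw [fb_cons_ge he'.1]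
    rw [e1, e1]
    exact ih (fun u => g (e :: u))

/-- **Job INV.** -/
theorem t_INV : S_INV := by
  intro P P' M b hP hP' hb h n
  unfold ell
  have e1 : (fun w : List ℕ => (lis b w : ℝ)) = fun w => (fun u => (lis b u : ℝ)) (fb b w) := by
    funext w
    show (lis b w : ℝ) = (lis b (fb b w) : ℝ)
    rw [lis_fb w b b le_rfl]
  rw [e1]
  exact Ex_fb hP hP' hb h n (fun u => (lis b u : ℝ))

end Pool.Agent.Q53.IS
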