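import Pool.Agent.Q75.IS.Stm

/-!
Project IS (helper75): job THIN.
-/

set_option autoImplicit false

open Finset

namespace Pool.Agent.Q53.IS

open Pool.Agent.Q75.IS

/-- Replace every letter by `0` with probability `1 - θ`, independently. -/
noncomputable def TT (θ : ℝ) : List ℕ → (List ℕ → ℝ) → ℝ
  | [], g => g []
  | (x :: v), g => θ * TT θ v (fun u => g (x :: u)) + (1 - θ) * TT θ v (fun u => g (0 :: u))

theorem TT_nil (θ : ℝ) (g : List ℕ → ℝ) : TT θ [] g = g [] := rfl

theorem TT_cons (θ : ℝ) (x : ℕ) (v : List ℕ) (g : List ℕ → ℝ) :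
    TT θ (x :: v) g = θ * TT θ v (fun u => g (x :: u)) + (1 - θ) * TT θ v (fun u => g (0 :: u)) :=
  rfl

theorem TT_mono {θ : ℝ} (h0 : 0 ≤ θ) (h1 : θ ≤ 1) (w : List ℕ) : ∀ {g h : List ℕ → ℝ},
    (∀ u, g u ≤ h u) → TT θ w g ≤ TT θ w h := by
  induction w with
  | nil => intro g h H; exact H []
  | cons x v ih =>
    intro g h H
    rw [TT_cons, TT_cons]
    have e1 := mul_le_mul_of_nonneg_left (ih (g := fun u => g (x :: u)) (h := fun u => h (x :: u))
      fun u => H _) h0
    have e2 := mul_le_mul_of_nonneg_left (ih (g := fun u => g (0 :: u)) (h := fun u => h (0 :: u))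
      fun u => H _) (by linarith : (0 : ℝ) ≤ 1 - θ)
    linarith

theorem TT_const_add (θ c : ℝ) (w : List ℕ) : ∀ g : List ℕ → ℝ,
    TT θ w (fun u => c + g u) = c + TT θ w g := by
  induction w with
  | nil => intro g; rfl
  | cons x v ih =>
    intro g
    rw [TT_cons, TT_cons, ih (fun u => g (x :: u)), ih (fun u => g (0 :: u))]
    ring

/-- `u` is obtained from `w` by replacing letters by `0`. -/
def Rep (w u : List ℕ) : Prop := List.Forall₂ (fun x y => y = x ∨ y = 0) w u

theorem TT_le {θ : ℝ} (h0 : 0 ≤ θ) (h1 : θ ≤ 1) (C : ℝ) (w : List ℕ) : ∀ g : List ℕ → ℝ,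
    (∀ u, Rep w u → g u ≤ C) → TT θ w g ≤ C := by
  induction w with
  | nil => intro g H; exact H [] List.Forall₂.nil
  | cons x v ih =>
    intro g H
    rw [TT_cons]
    have e1 := mul_le_mul_of_nonneg_left (ih (fun u => g (x :: u))
      fun u hu => H _ (List.Forall₂.cons (Or.inl rfl) hu)) h0
    have e2 := mul_le_mul_of_nonneg_left (ih (fun u => g (0 :: u))
      fun u hu => H _ (List.Forall₂.cons (Or.inr rfl) hu)) (by linarith : (0 : ℝ) ≤ 1 - θ)
    linarith

theorem rep_lis {w u : List ℕ} (h : Rep w u) : ∀ b : ℕ, 1 ≤ b → lis b u ≤ lis b w := by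
  induction h with
  | nil => intro b _; exact le_rfl
  | @cons x y w u hxy _ ih =>
    intro b hb
    rcases hxy with rfl | rfl
    · by_cases hx : b ≤ y
      · rw [lis_cons_ge hx, lis_cons_ge hx]
        exact max_le_max (ih b hb) (Nat.add_le_add_left (ih (y + 1) (by omega)) 1)
      · rw [lis_cons_lt (by omega), lis_cons_lt (by omega)]
        exact ih b hb
    · rw [lis_cons_lt (by omega)]
      exact (ih b hb).trans (lis_le_cons _ _ _)

theorem TT_lower {θ : ℝ} (h0 : 0 ≤ θ) (h1 : θ ≤ 1) (w : List ℕ) : ∀ b : ℕ, 1 ≤ b →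
    θ * (lis b w : ℝ) ≤ TT θ w (fun u => (lis b u : ℝ)) := by
  induction w with
  | nil => intro b _; simp [TT_nil, lis_nil]
  | cons x v ih =>
    intro b hb
    rw [TT_cons]
    have e0 : TT θ v (fun u => (lis b (0 :: u) : ℝ)) = TT θ v (fun u => (lis b u : ℝ)) := by
      congr 1
      funext u
      rw [lis_cons_lt (by omega)]
    rw [e0]
    have h1' : (0 : ℝ) ≤ 1 - θ := by linarith
    have hgen : θ * (lis b v : ℝ) ≤ θ * TT θ v (fun u => (lis b (x :: u) : ℝ)) +
        (1 - θ) * TT θ v (fun u => (lis b u : ℝ)) := by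
      have e1 : TT θ v (fun u => (lis b u : ℝ)) ≤ TT θ v (fun u => (lis b (x :: u) : ℝ)) :=
        TT_mono h0 h1 v fun u => by exact_mod_cast lis_le_cons b x u
      have e2 := ih b hb
      nlinarith [mul_le_mul_of_nonneg_left e1 h0]
    by_cases hx : b ≤ x
    · rcases le_total (lis b v) (1 + lis (x + 1) v) with h2 | h2
      · rw [lis_cons_ge hx, max_eq_right h2]
        have e1 : 1 + TT θ v (fun u => (lis (x + 1) u : ℝ)) ≤
            TT θ v (fun u => (lis b (x :: u) : ℝ)) := by
          rw [← TT_const_add]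
          refine TT_mono h0 h1 v fun u => ?_
          rw [lis_cons_ge hx]
          have : 1 + lis (x + 1) u ≤ max (lis b u) (1 + lis (x + 1) u) := le_max_right _ _
          exact_mod_cast this
        have e2 : TT θ v (fun u => (lis (x + 1) u : ℝ)) ≤ TT θ v (fun u => (lis b u : ℝ)) :=
          TT_mono h0 h1 v fun u => by exact_mod_cast lis_anti (by omega) u
        have e3 := ih (x + 1) (by omega)
        have e4 := mul_le_mul_of_nonneg_left e1 h0
        have e5 := mul_le_mul_of_nonneg_left e2 h1'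
        push_cast
        nlinarith
      · rw [lis_cons_ge hx, max_eq_left h2]
        exact hgen
    · rw [lis_cons_lt (by omega)]
      have e1 : TT θ v (fun u => (lis b (x :: u) : ℝ)) = TT θ v (fun u => (lis b u : ℝ)) := by
        congr 1
        funext u
        rw [lis_cons_lt (by omega)]
      rw [e1] at hgen ⊢
      exact hgen

theorem Ex_TT {P Q : ℕ → ℝ} {M : ℕ} {θ : ℝ} (hP : Law P M)
    (hQ : ∀ e < M, Q e = θ * P e + (1 - θ) * (if e = 0 then 1 else 0)) (n : ℕ) :
    ∀ g : List ℕ → ℝ, Ex Q M n g = Ex P M n (fun w => TT θ w g) := by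
  induction n with
  | zero => intro g; rfl
  | succ n ih =>
    intro g
    rw [Ex_succ, Ex_succ]
    have e1 : ∀ e ∈ range M, P e * Ex P M n (fun w => TT θ (e :: w) g) =
        θ * (P e * Ex P M n (fun w => TT θ w (fun u => g (e :: u)))) +
        (1 - θ) * (P e * Ex P M n (fun w => TT θ w (fun u => g (0 :: u)))) := by
      intro e _
      have : (fun w => TT θ (e :: w) g) = fun w => θ * TT θ w (fun u => g (e :: u)) +
          (1 - θ) * TT θ w (fun u => g (0 :: u)) := by
        funext w; rfl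
      rw [this, Ex_add, Ex_mul, Ex_mul]
      ring
    have e2 : ∀ e ∈ range M, Q e * Ex Q M n (fun w => g (e :: w)) =
        θ * (P e * Ex P M n (fun w => TT θ w (fun u => g (e :: u)))) +
        (1 - θ) * (if e = 0 then Ex P M n (fun w => TT θ w (fun u => g (e :: u))) else 0) := by
      intro e he
      rw [hQ e (mem_range.1 he), ih]
      split_ifs <;> ring
    rw [sum_congr rfl e1, sum_congr rfl e2, sum_add_distrib, sum_add_distrib]
    congr 1
    rw [← mul_sum, ← mul_sum, ← sum_mul, hP.sum, one_mul, sum_ite_eq' (range M) 0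
      (fun e => Ex P M n (fun w => TT θ w (fun u => g (e :: u)))), if_pos]
    have := hP.two
    rw [mem_range]
    omega

/-- The law with the same letters `≥ 2` and no source. -/
noncomputable def nosrc (P : ℕ → ℝ) (M : ℕ) (e : ℕ) : ℝ :=
  if e = 0 then 1 - ∑ i ∈ Ico 2 M, P i else if e = 1 then 0 else P e

theorem range_eq_ins {M : ℕ} (hM : 2 ≤ M) : range M = insert 0 (insert 1 (Ico 2 M)) := by
  ext x
  simp only [mem_range, mem_insert, mem_Ico]
  omega

theorem sum_Ico_nosrc (P : ℕ → ℝ) (M : ℕ) :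
    ∑ i ∈ Ico 2 M, nosrc P M i = ∑ i ∈ Ico 2 M, P i := by
  refine sum_congr rfl fun i hi => ?_
  have := (mem_Ico.1 hi).1
  unfold nosrc
  rw [if_neg (by omega), if_neg (by omega)]

theorem sum_Ico_le_one {P : ℕ → ℝ} {M : ℕ} (hP : Law P M) : ∑ i ∈ Ico 2 M, P i ≤ 1 := by
  have h1 := hP.sum
  rw [range_eq_ins hP.two, sum_insert (by simp), sum_insert (by simp)] at h1
  have := hP.nonneg 0
  have := hP.nonneg 1
  linarith

theorem nosrc_law {P : ℕ → ℝ} {M : ℕ} (h0 : ∀ e, 0 ≤ P e) (h1 : ∑ i ∈ Ico 2 M, P i ≤ 1)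
    (hM : 2 ≤ M) : Law (nosrc P M) M := by
  refine ⟨fun e => ?_, ?_, hM⟩
  · unfold nosrc
    split_ifs
    · linarith
    · exact le_rfl
    · exact h0 e
  · rw [range_eq_ins hM, sum_insert (by simp), sum_insert (by simp), sum_Ico_nosrc]
    unfold nosrc
    simp

/-- **Job THIN.** -/
theorem t_THIN (h : S_INV) : S_THIN := by
  intro P Q M n θ hP hQ h0 h1 hPQ
  have hM := hP.two
  have hP' := nosrc_law hP.nonneg (sum_Ico_le_one hP) hM
  have hQ' := nosrc_law hQ.nonneg (sum_Ico_le_one hQ) hM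
  have eP := h P (nosrc P M) M 2 hP hP' hM (fun i hi _ => by
    unfold nosrc
    rw [if_neg (by omega), if_neg (by omega)]) n
  have eQ := h Q (nosrc Q M) M 2 hQ hQ' hM (fun i hi _ => by
    unfold nosrc
    rw [if_neg (by omega), if_neg (by omega)]) n
  have hSQ : ∑ i ∈ Ico 2 M, Q i = θ * ∑ i ∈ Ico 2 M, P i := by
    rw [mul_sum]
    exact sum_congr rfl fun i hi => hPQ i (mem_Ico.1 hi).1 (mem_Ico.1 hi).2
  have hrel : ∀ e < M, nosrc Q M e = θ * nosrc P M e + (1 - θ) * (if e = 0 then 1 else 0) := by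
    intro e he
    unfold nosrc
    split_ifs with h2 h3
    · rw [hSQ]; ring
    · ring
    · rw [hPQ e (by omega) he]; ring
  rw [eP, eQ]
  have e1 : ell (nosrc Q M) M 2 n =
      Ex (nosrc P M) M n (fun w => TT θ w (fun u => (lis 2 u : ℝ))) :=
    Ex_TT hP' hrel n (fun u => (lis 2 u : ℝ))
  rw [e1]
  unfold ell
  constructor
  · rw [← Ex_mul]
    exact Ex_mono hP'.nonneg n fun w _ _ => TT_lower h0 h1 w 2 (by omega)
  · refine Ex_mono hP'.nonneg n fun w _ _ => ?_
    refine TT_le h0 h1 _ w _ fun u hu => ?_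
    exact_mod_cast rep_lis hu 2 (by omega)

end Pool.Agent.Q53.IS
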