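import Pool.Agent.Q75.IS.Stm
import Pool.Agent.Q53.IS.THIN

/-!
Project IS (helper75): job LISX.
-/

set_option autoImplicit false

open Finset

namespace Pool.Agent.Q53.IS

open Pool.Agent.Q75.IS

/-- The shifted word of `x` on `[a, a + m)`. -/
def wd (x : ℕ → ℕ) (a m : ℕ) : List ℕ := (List.range' a m).map (fun k => x k + 2)

theorem wd_succ (x : ℕ → ℕ) (a m : ℕ) : wd x a (m + 1) = (x a + 2) :: wd x (a + 1) m := by
  unfold wd
  rw [List.range'_succ, List.map_cons]

theorem lisx_exists (x : ℕ → ℕ) (m : ℕ) : ∀ a b : ℕ, ∃ s : Finset ℕ, s ⊆ Ico a (a + m) ∧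
    StrictMonoOn x s ∧ (∀ k ∈ s, b ≤ x k + 2) ∧ s.card = lis b (wd x a m) := by
  induction m with
  | zero =>
    intro a b
    exact ⟨∅, by simp, fun k hk => absurd hk (by simp), by simp, by simp [wd, lis_nil]⟩
  | succ m ih =>
    intro a b
    rw [wd_succ]
    have hsub : ∀ s : Finset ℕ, s ⊆ Ico (a + 1) (a + 1 + m) → s ⊆ Ico a (a + (m + 1)) := by
      intro s hs k hk
      have := mem_Ico.1 (hs hk)
      rw [mem_Ico]
      omega
    obtain ⟨s, h1, h2, h3, h4⟩ := ih (a + 1) b
    by_cases hb : b ≤ x a + 2
    · rw [lis_cons_ge hb]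
      rcases le_total (lis b (wd x (a + 1) m)) (1 + lis (x a + 2 + 1) (wd x (a + 1) m)) with h | h
      · rw [max_eq_right h]
        obtain ⟨t, g1, g2, g3, g4⟩ := ih (a + 1) (x a + 2 + 1)
        have hat : a ∉ t := fun hh => by
          have := mem_Ico.1 (g1 hh)
          omega
        refine ⟨insert a t, ?_, ?_, ?_, ?_⟩
        · intro k hk
          rcases mem_insert.1 hk with rfl | hk
          · rw [mem_Ico]; omega
          · exact hsub t g1 hk
        · intro k hk l hl hkl
          rw [mem_coe, mem_insert] at hk hl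
          rcases hk with rfl | hk
          · rcases hl with rfl | hl
            · omega
            · have := g3 l hl
              omega
          · rcases hl with rfl | hl
            · have := mem_Ico.1 (g1 hk)
              omega
            · exact g2 (mem_coe.2 hk) (mem_coe.2 hl) hkl
        · intro k hk
          rcases mem_insert.1 hk with rfl | hk
          · exact hb
          · have := g3 k hk
            omega
        · rw [card_insert_of_notMem hat, g4]
          omega
      · rw [max_eq_left h]
        exact ⟨s, hsub s h1, h2, h3, h4⟩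
    · rw [lis_cons_lt (by omega)]
      exact ⟨s, hsub s h1, h2, h3, h4⟩

theorem lisx_le (x : ℕ → ℕ) (m : ℕ) : ∀ (a b : ℕ) (s : Finset ℕ), s ⊆ Ico a (a + m) →
    StrictMonoOn x s → (∀ k ∈ s, b ≤ x k + 2) → s.card ≤ lis b (wd x a m) := by
  induction m with
  | zero =>
    intro a b s hs _ _
    have : s = ∅ := by
      rw [← subset_empty]
      simpa using hs
    rw [this]
    simp
  | succ m ih =>
    intro a b s hs h2 h3
    rw [wd_succ]
    by_cases ha : a ∈ s
    · have hb := h3 a ha
      rw [lis_cons_ge hb]
      have h4 := ih (a + 1) (x a + 2 + 1) (s.erase a) (by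
        intro k hk
        rw [mem_erase] at hk
        have := mem_Ico.1 (hs hk.2)
        rw [mem_Ico]
        omega) (h2.mono (by
          intro k hk
          rw [mem_coe, mem_erase] at hk
          exact hk.2)) (by
        intro k hk
        rw [mem_erase] at hk
        have h5 := mem_Ico.1 (hs hk.2)
        have h6 := h2 (mem_coe.2 ha) (mem_coe.2 hk.2) (by omega : a < k)
        omega)
      have h5 := card_erase_add_one ha
      have h6 : 1 + lis (x a + 2 + 1) (wd x (a + 1) m) ≤
        max (lis b (wd x (a + 1) m)) (1 + lis (x a + 2 + 1) (wd x (a + 1) m)) := le_max_right _ _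
      omega
    · refine (ih (a + 1) b s ?_ h2 h3).trans (lis_le_cons _ _ _)
      intro k hk
      have h4 := mem_Ico.1 (hs hk)
      have : k ≠ a := fun e => ha (e ▸ hk)
      rw [mem_Ico]
      omega

/-- **Job LISX.** -/
theorem t_LISX : S_LISX := by
  refine ⟨fun x n => ?_, fun w f hf => ?_⟩
  · have e : (List.range n).map (fun k => x k + 2) = wd x 0 n := by
      unfold wd
      rw [List.range_eq_range']
    rw [e]
    unfold LIS
    apply IsGreatest.csSup_eq
    constructor
    · obtain ⟨s, h1, h2, _, h4⟩ := lisx_exists x n 0 2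
      rw [zero_add, ← range_eq_Ico] at h1
      exact ⟨s, h1, h2, h4⟩
    · rintro k ⟨s, h1, h2, rfl⟩
      refine lisx_le x n 0 2 s ?_ h2 fun k _ => by omega
      rw [zero_add, ← range_eq_Ico]
      exact h1
  · refine rep_lis ?_ 2 (by omega)
    unfold Rep
    induction w with
    | nil => exact List.Forall₂.nil
    | cons x w ih => exact List.Forall₂.cons (hf x) ih

end Pool.Agent.Q53.IS
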