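import Pool.Agent.Q75.IS.Stm

/-!
Project IS (helper75): job STA.
-/

set_option autoImplicit false

open Finset

namespace Pool.Agent.Q53.IS

open Pool.Agent.Q75.IS

theorem del_succ {i : ℕ} {D : Finset ℕ} (hi : i ∉ D) : del i D = del (i + 1) D := by
  rcases del_cases i D with ⟨h1, h2⟩ | ⟨m, hm, him, hmin, h⟩
  · rw [h2, del_empty fun j hj => by have := h1 j hj; omega]
  · rw [h]
    have hmi : m ≠ i := fun e => hi (e ▸ hm)
    rw [del_eq hm (by omega) fun j hj hij => hmin j hj (by omega)]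

theorem del_insert {i : ℕ} {D : Finset ℕ} (hi : i ∉ D) : del i (insert i D) = D := by
  rw [del_eq (mem_insert_self i D) le_rfl fun j _ hij => hij, erase_insert hi]

theorem del_succ_insert {i : ℕ} (D : Finset ℕ) :
    del (i + 1) (insert i D) = insert i (del (i + 1) D) := by
  rcases del_cases (i + 1) D with ⟨h1, h2⟩ | ⟨m, hm, him, hmin, h⟩
  · rw [h2, del_empty]
    intro j hj
    rcases mem_insert.1 hj with h | h
    · omega
    · exact h1 j h
  · rw [h, del_eq (mem_insert_of_mem hm) him]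
    · rw [erase_insert_of_ne (by omega)]
    · intro j hj hij
      rcases mem_insert.1 hj with h' | h'
      · omega
      · exact hmin j h' hij

theorem step_insert {i : ℕ} (hi2 : 2 ≤ i) {D : Finset ℕ} (hi : i ∉ D) :
    step i (insert i D) = insert i D := by
  rw [step_ge hi2, del_insert hi]

theorem rh_id (P : ℕ → ℝ) (a : ℝ) (i : ℕ) (hP : 0 ≤ P i) (ha : 0 ≤ a) :
    a * rh P a i = P i * (1 - rh P a i) := by
  unfold rh
  by_cases h : P i + a = 0
  · have h1 : P i = 0 := by linarith
    have h2 : a = 0 := by linarith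
    rw [h1, h2]
    simp
  · field_simp
    ring

/-- **Job STA.** -/
theorem t_STA : S_STA := by
  intro P M hP g
  set a := P 1 with ha
  set ρ := rh P a with hρ
  set A : ℕ → ℝ := fun i => Eb ρ M (fun D => g (del i D)) with hA
  set B : ℕ → ℝ := fun i => Eb ρ M (fun D => g (step i D)) with hB
  have hM2 := hP.two
  -- the balance at one letter
  have key : ∀ i ∈ Ico 2 M, a * (A i - A (i + 1)) + P i * (B i - Eb ρ M g) = 0 := by
    intro i hi
    have hi2 := (mem_Ico.1 hi).1
    have hid := rh_id P a i (hP.nonneg i) (hP.nonneg 1)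
    rw [hA, hB]
    simp only
    rw [← Eb_sub (fun D => g (del i D)) (fun D => g (del (i + 1) D)),
      ← Eb_sub (fun D => g (step i D)) g, Eb_split hi, Eb_split hi, mul_sum, mul_sum,
      ← sum_add_distrib]
    refine sum_eq_zero fun D hD => ?_
    have hiD : i ∉ D := by
      intro h
      have := mem_powerset.1 hD h
      simp at this
    rw [del_insert hiD, del_succ_insert, step_insert hi2 hiD, ← del_succ hiD, step_ge hi2]
    have h1 : a * ((∏ j ∈ D, ρ j) * (∏ j ∈ (Ico 2 M \ {i}) \ D, (1 - ρ j)) *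
        (ρ i * (g D - g (insert i (del i D))) + (1 - ρ i) * (g (del i D) - g (del i D)))) +
        P i * ((∏ j ∈ D, ρ j) * (∏ j ∈ (Ico 2 M \ {i}) \ D, (1 - ρ j)) *
        (ρ i * (g (insert i D) - g (insert i D)) + (1 - ρ i) * (g (insert i (del i D)) - g D))) =
        (∏ j ∈ D, ρ j) * (∏ j ∈ (Ico 2 M \ {i}) \ D, (1 - ρ j)) *
        ((g D - g (insert i (del i D))) * (a * ρ i - P i * (1 - ρ i))) := by ring
    rw [h1, hid, sub_self, mul_zero, mul_zero]
  -- telescoping
  have htel : ∑ i ∈ Ico 2 M, (A i - A (i + 1)) = A 2 - A M := by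
    have h1 := sum_Ico_sub A hM2
    have h2 : ∑ i ∈ Ico 2 M, (A i - A (i + 1)) = - ∑ i ∈ Ico 2 M, (A (i + 1) - A i) := by
      rw [← sum_neg_distrib]
      exact sum_congr rfl fun i _ => by ring
    rw [h2, h1]
    ring
  have hAM : A M = Eb ρ M g := by
    rw [hA]
    refine Eb_congr fun D hD => ?_
    rw [del_empty fun j hj => (mem_Ico.1 (hD hj)).2]
  have hsum := sum_eq_zero key
  rw [sum_add_distrib, ← mul_sum, htel, hAM] at hsum
  -- the total
  have hr : range M = insert 0 (insert 1 (Ico 2 M)) := by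
    ext x
    simp only [mem_range, mem_insert, mem_Ico]
    omega
  have e1 := hP.sum
  rw [hr, sum_insert (by simp), sum_insert (by simp)] at e1 ⊢
  have h0 : Eb ρ M (fun D => g (step 0 D)) = Eb ρ M g := Eb_congr fun D _ => by rw [step_zero]
  have h1 : Eb ρ M (fun D => g (step 1 D)) = A 2 := Eb_congr fun D _ => by rw [step_one]
  rw [h0, h1]
  have h2 : ∑ i ∈ Ico 2 M, P i * (B i - Eb ρ M g) =
      ∑ i ∈ Ico 2 M, P i * Eb ρ M (fun D => g (step i D)) - (∑ i ∈ Ico 2 M, P i) * Eb ρ M g := by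
    rw [sum_mul, ← sum_sub_distrib]
    exact sum_congr rfl fun i _ => by rw [hB]; ring
  rw [h2] at hsum
  have h3 : ∑ i ∈ Ico 2 M, P i = 1 - P 0 - P 1 := by linarith
  rw [h3] at hsum
  rw [ha] at hsum
  linarith

end Pool.Agent.Q53.IS
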