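import Pool.Agent.Q75.IS.Stm2
import Pool.Agent.Q53.IS.THIN

/-!
Project IS (helper75): jobs UP and UPM.
-/

set_option autoImplicit false

open Finset

namespace Pool.Agent.Q53.IS

open Pool.Agent.Q75.IS

/-- The law with source weight `a` and the letters `≥ b` of `P`. -/
noncomputable def srcl (P : ℕ → ℝ) (M b : ℕ) (a : ℝ) (e : ℕ) : ℝ :=
  if e = 0 then 1 - a - ∑ i ∈ Ico b M, P i else if e = 1 then a else if b ≤ e then P e else 0

theorem srcl_sum (P : ℕ → ℝ) {M b : ℕ} (a : ℝ) (hb : 2 ≤ b) (hbM : b ≤ M) (F : ℝ → ℝ)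
    (hF : F 0 = 0) : ∑ i ∈ Ico 2 M, F (srcl P M b a i) = ∑ i ∈ Ico b M, F (P i) := by
  rw [← sum_Ico_consecutive _ hb hbM]
  have h1 : ∑ i ∈ Ico 2 b, F (srcl P M b a i) = 0 := by
    refine sum_eq_zero fun i hi => ?_
    have := mem_Ico.1 hi
    unfold srcl
    rw [if_neg (by omega), if_neg (by omega), if_neg (by omega), hF]
  rw [h1, zero_add]
  refine sum_congr rfl fun i hi => ?_
  have := mem_Ico.1 hi
  unfold srcl
  rw [if_neg (by omega), if_neg (by omega), if_pos (by omega)]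

theorem srcl_law {P : ℕ → ℝ} {M b : ℕ} {a : ℝ} (hP : ∀ e, 0 ≤ P e) (hb : 2 ≤ b) (hbM : b ≤ M)
    (ha : 0 ≤ a) (hs : a + ∑ i ∈ Ico b M, P i ≤ 1) : Law (srcl P M b a) M := by
  refine ⟨fun e => ?_, ?_, by omega⟩
  · unfold srcl
    split_ifs
    · linarith
    · exact ha
    · exact hP e
    · exact le_rfl
  · rw [range_eq_ins (by omega), sum_insert (by simp), sum_insert (by simp)]
    have h1 : ∑ i ∈ Ico 2 M, srcl P M b a i = ∑ i ∈ Ico b M, P i :=
      srcl_sum P a hb hbM (fun x => x) rfl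
    rw [h1]
    unfold srcl
    simp

theorem rh_nonneg {P : ℕ → ℝ} {a : ℝ} (hP : ∀ e, 0 ≤ P e) (ha : 0 ≤ a) (i : ℕ) : 0 ≤ rh P a i :=
  div_nonneg (hP i) (add_nonneg (hP i) ha)

theorem rh_le_one {P : ℕ → ℝ} {a : ℝ} (hP : ∀ e, 0 ≤ P e) (ha : 0 ≤ a) (i : ℕ) : rh P a i ≤ 1 := by
  unfold rh
  exact div_le_one_of_le₀ (by linarith) (add_nonneg (hP i) ha)

/-- **Job UP.** -/
theorem t_UP (hSTA : S_STA) (hEBM : S_EBM) (hSRC : S_SRC) (hUDET : S_UDET) (hINV : S_INV) :
    S_UP := by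
  intro P M b n a hP hb hbM ha hs
  set P' := srcl P M b a with hP'def
  have hP' : Law P' M := srcl_law hP.nonneg hb hbM ha hs
  have hP1 : P' 1 = a := by
    rw [hP'def]
    unfold srcl
    simp
  have hρ0 : ∀ j, 0 ≤ rh P' (P' 1) j := fun j => rh_nonneg hP'.nonneg (hP'.nonneg 1) j
  have hρ1 : ∀ j, rh P' (P' 1) j ≤ 1 := fun j => rh_le_one hP'.nonneg (hP'.nonneg 1) j
  have e1 : ell P M b n = ell P' M b n := hINV P P' M b hP hP' hbM (fun i hi _ => by
    rw [hP'def]
    unfold srcl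
    rw [if_neg (by omega), if_neg (by omega), if_pos hi]) n
  rw [e1]
  refine (ell_anti hP'.nonneg hb n).trans ?_
  -- the deterministic bound
  have e2 : ell P' M 2 n = Eb (rh P' (P' 1)) M (fun _ => ell P' M 2 n) := (Eb_const _).symm
  rw [e2]
  have e3 : Eb (rh P' (P' 1)) M (fun _ => ell P' M 2 n) ≤
      Eb (rh P' (P' 1)) M (fun D => Ex P' M n (fun w => (w.count 1 : ℝ)) +
        Ex P' M n (fun w => ((run D w).card : ℝ))) := by
    refine Eb_mono hρ0 hρ1 fun D _ => ?_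
    rw [← Ex_add]
    refine Ex_mono hP'.nonneg n fun w _ _ => ?_
    exact_mod_cast hUDET w D
  refine e3.trans ?_
  rw [Eb_add (fun _ => Ex P' M n (fun w => (w.count 1 : ℝ)))
    (fun D => Ex P' M n (fun w => ((run D w).card : ℝ))), Eb_const,
    (hSRC P' M hP' n n le_rfl).2.2.1, Eb_run hSTA hP' n (fun D => (D.card : ℝ))]
  have e4 : Eb (rh P' (P' 1)) M (fun D => (D.card : ℝ)) = ∑ j ∈ Ico 2 M, rh P' (P' 1) j := by
    rw [← (hEBM (rh P' (P' 1)) M M hρ0 hρ1 (by omega) le_rfl).1]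
    refine Eb_congr fun D hD => ?_
    have : D.filter (fun j => j < M) = D :=
      filter_true_of_mem fun j hj => (mem_Ico.1 (hD hj)).2
    rw [this]
  rw [e4, hP1]
  have e5 : ∑ j ∈ Ico 2 M, rh P' a j = ∑ i ∈ Ico b M, P i / (P i + a) := by
    have := srcl_sum P (M := M) (b := b) a hb hbM (fun x => x / (x + a)) (by simp)
    exact this
  rw [e5]
  unfold FF
  exact le_rfl

/-- **Job UPM.** -/
theorem t_UPM (hTHIN : S_THIN) (hUP : S_UP) : S_UPM := by
  intro P M n l hP hn hl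
  have hM := hP.two
  have hn0 : (0 : ℝ) < n := by exact_mod_cast hn
  have hsq : 0 < Real.sqrt n := Real.sqrt_pos.2 hn0
  set t := 1 / Real.sqrt n with ht
  have ht0 : 0 < t := by rw [ht]; positivity
  have htt : t * t * n = 1 := by
    rw [ht]
    field_simp
    rw [Real.sq_sqrt hn0.le]
  have hS : ∑ i ∈ Ico 2 M, P i ≤ 1 := sum_Ico_le_one hP
  have hS0 : 0 ≤ ∑ i ∈ Ico 2 M, P i := sum_nonneg fun i _ => hP.nonneg i
  -- the choice of the parameter
  have step1 : FF P M 2 (min l t) n ≤ FF P M 2 l n := by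
    rcases le_total l t with h | h
    · rw [min_eq_left h]
    · rw [min_eq_right h]
      unfold FF
      have h1 : ∑ i ∈ Ico 2 M, P i / (P i + t) ≤
          ∑ i ∈ Ico 2 M, (P i / (P i + l) + (l - t) / (t * t) * P i) := by
        refine sum_le_sum fun i _ => ?_
        have hp := hP.nonneg i
        have h2 : P i / (P i + t) - P i / (P i + l) = P i * (l - t) / ((P i + t) * (P i + l)) := by
          have : P i + t ≠ 0 := by positivity
          have : P i + l ≠ 0 := by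
            have : 0 < P i + l := by linarith
            exact this.ne'
          field_simp
          ring
        have h3 : P i * (l - t) / ((P i + t) * (P i + l)) ≤ P i * (l - t) / (t * t) := by
          apply div_le_div_of_nonneg_left
          · exact mul_nonneg hp (by linarith)
          · positivity
          · exact mul_le_mul (by linarith) (by linarith) ht0.le (by linarith)
        have h4 : P i * (l - t) / (t * t) = (l - t) / (t * t) * P i := by ring
        linarith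
      rw [sum_add_distrib, ← mul_sum] at h1
      have h2 : (l - t) / (t * t) = (l - t) * n := by
        rw [div_eq_iff (by positivity)]
        rw [mul_assoc, mul_comm (n : ℝ), htt, mul_one]
      rw [h2] at h1
      have h3 : (l - t) * n * ∑ i ∈ Ico 2 M, P i ≤ (l - t) * n :=
        mul_le_of_le_one_right (mul_nonneg (by linarith) hn0.le) hS
      nlinarith
  set μ := min l t with hμ
  have hμ0 : 0 ≤ μ := le_min hl ht0.le
  have hμt : μ ≤ t := min_le_right _ _
  have hF0 : 0 ≤ FF P M 2 μ n := by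
    unfold FF
    refine add_nonneg (mul_nonneg hμ0 hn0.le) (sum_nonneg fun i _ => ?_)
    exact div_nonneg (hP.nonneg i) (add_nonneg (hP.nonneg i) hμ0)
  -- the thinned law
  set θ := 1 / (1 + μ) with hθ
  have h1μ : 0 < 1 + μ := by linarith
  have hθ0 : 0 < θ := by rw [hθ]; positivity
  have hθ1 : θ ≤ 1 := by
    rw [hθ, div_le_one h1μ]
    linarith
  have hθμ : θ * (1 + μ) = 1 := by rw [hθ]; field_simp
  set Q := nosrc (fun i => θ * P i) M with hQdef
  have hQs : ∑ i ∈ Ico 2 M, θ * P i ≤ 1 := by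
    rw [← mul_sum]
    nlinarith
  have hQ : Law Q M := nosrc_law (fun e => mul_nonneg hθ0.le (hP.nonneg e)) hQs hM
  have hQi : ∀ i, 2 ≤ i → Q i = θ * P i := by
    intro i hi
    rw [hQdef]
    unfold nosrc
    rw [if_neg (by omega), if_neg (by omega)]
  have h1 := (hTHIN P Q M n θ hP hQ hθ0.le hθ1 fun i hi _ => hQi i hi).1
  have hsumQ : ∑ i ∈ Ico 2 M, Q i = θ * ∑ i ∈ Ico 2 M, P i := by
    rw [mul_sum]
    exact sum_congr rfl fun i hi => hQi i (mem_Ico.1 hi).1
  have h2 := hUP Q M 2 n (μ * θ) hQ le_rfl hM (mul_nonneg hμ0 hθ0.le) (by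
    rw [hsumQ]
    nlinarith)
  have h3 : FF Q M 2 (μ * θ) n = μ * θ * n + ∑ i ∈ Ico 2 M, P i / (P i + μ) := by
    unfold FF
    congr 1
    refine sum_congr rfl fun i hi => ?_
    rw [hQi i (mem_Ico.1 hi).1]
    have : θ * P i + μ * θ = θ * (P i + μ) := by ring
    rw [this, mul_div_mul_left _ _ hθ0.ne']
  rw [h3] at h2
  have h4 : ell P M 2 n = (1 + μ) * (θ * ell P M 2 n) := by
    rw [← mul_assoc, mul_comm (1 + μ), hθμ, one_mul]
  have hA : 0 ≤ ∑ i ∈ Ico 2 M, P i / (P i + μ) :=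
    sum_nonneg fun i _ => div_nonneg (hP.nonneg i) (add_nonneg (hP.nonneg i) hμ0)
  have h5 : ell P M 2 n ≤ (1 + μ) * FF P M 2 μ n := by
    rw [h4]
    have h6 : (1 + μ) * (θ * ell P M 2 n) ≤
        (1 + μ) * (μ * θ * n + ∑ i ∈ Ico 2 M, P i / (P i + μ)) :=
      mul_le_mul_of_nonneg_left (h1.trans h2) h1μ.le
    have h7 : (1 + μ) * (μ * θ * n + ∑ i ∈ Ico 2 M, P i / (P i + μ)) =
        μ * n * (θ * (1 + μ)) + (1 + μ) * ∑ i ∈ Ico 2 M, P i / (P i + μ) := by ring
    rw [h7, hθμ, mul_one] at h6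
    unfold FF
    have h8 : μ * n ≤ (1 + μ) * (μ * n) := by
      have := mul_nonneg hμ0 hn0.le
      nlinarith
    linarith
  calc ell P M 2 n ≤ (1 + μ) * FF P M 2 μ n := h5
    _ ≤ (1 + t) * FF P M 2 μ n := mul_le_mul_of_nonneg_right (by linarith) hF0
    _ ≤ (1 + t) * FF P M 2 l n := mul_le_mul_of_nonneg_left step1 (by linarith)

end Pool.Agent.Q53.IS
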