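import Pool.Agent.Q75.IS.Stm

/-!
Project IS (helper75): jobs UDET and VDET.
-/

set_option autoImplicit false

open Finset

namespace Pool.Agent.Q53.IS

open Pool.Agent.Q75.IS

/-- The number of elements smaller than `i`. -/
def cc (i : ℕ) (D : Finset ℕ) : ℕ := (D.filter (fun j => j < i)).card

theorem cc_mono {i k : ℕ} (h : i ≤ k) (D : Finset ℕ) : cc i D ≤ cc k D := by
  refine card_le_card fun x hx => ?_
  rw [mem_filter] at hx ⊢
  exact ⟨hx.1, by omega⟩

theorem cc_step_ge {e : ℕ} (he : 2 ≤ e) (i : ℕ) (D : Finset ℕ) : cc i D ≤ cc i (step e D) := by
  rw [step_ge he]
  unfold cc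
  rcases del_cases e D with ⟨_, h⟩ | ⟨m, hm, hem, hmin, h⟩
  · rw [h]
    refine card_le_card fun x hx => ?_
    rw [mem_filter] at hx ⊢
    exact ⟨mem_insert_of_mem hx.1, hx.2⟩
  · rw [h]
    by_cases hmi : m < i
    · have h1 : insert e ((D.filter (fun j => j < i)).erase m) ⊆
          (insert e (D.erase m)).filter (fun j => j < i) := by
        intro x hx
        rw [mem_insert, mem_erase, mem_filter] at hx
        rw [mem_filter, mem_insert, mem_erase]
        rcases hx with rfl | ⟨h2, h3, h4⟩
        · exact ⟨Or.inl rfl, by omega⟩
        · exact ⟨Or.inr ⟨h2, h3⟩, h4⟩
      have h2 : e ∉ (D.filter (fun j => j < i)).erase m := by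
        intro hx
        rw [mem_erase, mem_filter] at hx
        have := hmin e hx.2.1 le_rfl
        exact hx.1 (by omega)
      have h3 := card_le_card h1
      rw [card_insert_of_notMem h2] at h3
      have h4 : m ∈ D.filter (fun j => j < i) := mem_filter.2 ⟨hm, hmi⟩
      have h5 := card_erase_add_one h4
      omega
    · refine card_le_card fun x hx => ?_
      rw [mem_filter] at hx
      rw [mem_filter, mem_insert, mem_erase]
      refine ⟨Or.inr ⟨?_, hx.1⟩, hx.2⟩
      omega

theorem cc_step_succ {e : ℕ} (he : 2 ≤ e) (D : Finset ℕ) : 1 + cc e D ≤ cc (e + 1) (step e D) := by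
  rw [step_ge he]
  unfold cc
  have h1 : insert e (D.filter (fun j => j < e)) ⊆
      (insert e (del e D)).filter (fun j => j < e + 1) := by
    intro x hx
    rw [mem_insert, mem_filter] at hx
    rw [mem_filter, mem_insert]
    rcases hx with rfl | ⟨h2, h3⟩
    · exact ⟨Or.inl rfl, by omega⟩
    · refine ⟨Or.inr ?_, by omega⟩
      rcases del_cases e D with ⟨_, h⟩ | ⟨m, hm, hem, hmin, h⟩
      · rw [h]; exact h2
      · rw [h, mem_erase]
        exact ⟨by omega, h2⟩
  have h2 : e ∉ D.filter (fun j => j < e) := by
    intro hx
    rw [mem_filter] at hx
    omega
  have h3 := card_le_card h1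
  rw [card_insert_of_notMem h2] at h3
  omega

theorem cc_del (k i : ℕ) (D : Finset ℕ) : cc i D ≤ 1 + cc i (del k D) := by
  unfold cc
  rcases del_cases k D with ⟨_, h⟩ | ⟨m, hm, hem, hmin, h⟩
  · rw [h]; omega
  · rw [h]
    have h1 : D.filter (fun j => j < i) ⊆ insert m ((D.erase m).filter (fun j => j < i)) := by
      intro x hx
      rw [mem_filter] at hx
      rw [mem_insert, mem_filter, mem_erase]
      by_cases hxm : x = m
      · exact Or.inl hxm
      · exact Or.inr ⟨⟨hxm, hx.1⟩, hx.2⟩
    have h2 := card_le_card h1
    have h3 := card_insert_le m ((D.erase m).filter (fun j => j < i))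
    omega

theorem count_cons' (e : ℕ) (v : List ℕ) :
    (e :: v).count 1 = v.count 1 + if e = 1 then 1 else 0 := by
  rw [List.count_cons]
  simp

theorem udet_gen (w : List ℕ) : ∀ (D : Finset ℕ) (i : ℕ), 2 ≤ i →
    cc i D + lis i w ≤ w.count 1 + (run D w).card := by
  induction w with
  | nil =>
    intro D i _
    rw [run_nil, lis_nil]
    have : cc i D ≤ D.card := card_filter_le _ _
    simpa using this
  | cons e v ih =>
    intro D i hi
    rw [run_cons, count_cons']
    by_cases h0 : e = 0
    · subst h0
      rw [lis_cons_lt (by omega), step_zero]
      have := ih D i hi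
      simpa using this
    by_cases h1 : e = 1
    · subst h1
      rw [lis_cons_lt (by omega), step_one, if_pos rfl]
      have h2 := ih (del 2 D) i hi
      have h3 := cc_del 2 i D
      omega
    have he : 2 ≤ e := by omega
    rw [if_neg h1]
    have h2 := ih (step e D) i hi
    have h3 := cc_step_ge he i D
    by_cases hie : i ≤ e
    · rw [lis_cons_ge hie]
      have h4 := ih (step e D) (e + 1) (by omega)
      have h5 := cc_step_succ he D
      have h6 := cc_mono hie D
      rcases le_total (lis i v) (1 + lis (e + 1) v) with h7 | h7
      · rw [max_eq_right h7]
        omega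
      · rw [max_eq_left h7]
        omega
    · rw [lis_cons_lt (by omega)]
      omega

/-- **Job UDET.** -/
theorem t_UDET : S_UDET := by
  intro w D
  have := udet_gen w D 2 le_rfl
  omega

/-- **Job VDET.** -/
theorem t_VDET : S_VDET := by
  intro w
  induction w with
  | nil =>
    intro D _
    right
    refine ⟨D.sup id + 2, by omega, ?_⟩
    rw [run_nil, lis_nil]
    have : D.filter (fun j => j < D.sup id + 2) = D := by
      refine filter_true_of_mem fun j hj => ?_
      have : j ≤ D.sup id := le_sup (f := id) hj
      omega
    rw [this]
    simp
  | cons e v ih =>
    intro D hD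
    rw [run_cons, count_cons']
    rcases ih (step e D) (step_ge2 hD e) with ⟨s, hs, h⟩ | ⟨i, hi, h⟩
    · left
      refine ⟨s + 1, by rw [List.length_cons]; omega, ?_⟩
      rw [List.take_succ_cons, List.drop_succ_cons, count_cons']
      omega
    · have hcc : ∀ D' : Finset ℕ, (D'.filter (fun j => j < i)).card = cc i D' := fun _ => rfl
      rw [hcc] at h
      by_cases h0 : e = 0
      · subst h0
        right
        refine ⟨i, hi, ?_⟩
        rw [lis_cons_lt (by omega), hcc]
        rw [step_zero] at h ⊢
        simpa using h
      by_cases h1 : e = 1
      · subst h1
        rw [if_pos rfl]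
        rw [step_one] at h ⊢
        by_cases hex : ∃ j ∈ D, j < i
        · right
          refine ⟨i, hi, ?_⟩
          rw [lis_cons_lt (by omega), hcc]
          have h2 : 1 + cc i (del 2 D) ≤ cc i D := by
            obtain ⟨j, hj, hji⟩ := hex
            rcases del_cases 2 D with ⟨h3, _⟩ | ⟨m, hm, hem, hmin, h3⟩
            · have := h3 j hj
              have := hD j hj
              omega
            · rw [h3]
              have hmj := hmin j hj (hD j hj)
              unfold cc
              have h4 : (D.erase m).filter (fun j => j < i) =
                  (D.filter (fun j => j < i)).erase m := by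
                ext x
                simp only [mem_filter, mem_erase]
                tauto
              have h5 : m ∈ D.filter (fun j => j < i) := mem_filter.2 ⟨hm, by omega⟩
              rw [h4]
              have := card_erase_add_one h5
              omega
          omega
        · left
          refine ⟨1, by rw [List.length_cons]; omega, ?_⟩
          push Not at hex
          have h2 : cc i (del 2 D) = 0 := by
            unfold cc
            rw [card_eq_zero, filter_eq_empty_iff]
            intro x hx
            have := hex x (del_subset _ _ hx)
            omega
          have h3 := lis_anti hi v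
          show v.count 1 + 1 + (run (del 2 D) v).card ≤ ([1] : List ℕ).count 1 + lis 2 v
          have h4 : ([1] : List ℕ).count 1 = 1 := by simp
          omega
      have he : 2 ≤ e := by omega
      rw [if_neg h1]
      by_cases hie : i ≤ e
      · right
        refine ⟨i, hi, ?_⟩
        rw [hcc]
        have h2 : cc i (step e D) ≤ cc i D := by
          rw [step_ge he]
          refine card_le_card fun x hx => ?_
          rw [mem_filter, mem_insert] at hx
          rw [mem_filter]
          rcases hx with ⟨rfl | h3, h4⟩
          · omega
          · exact ⟨del_subset _ _ h3, h4⟩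
        have h3 := lis_le_cons i e v
        omega
      · by_cases hex : ∃ j ∈ D, e ≤ j ∧ j < i
        · right
          refine ⟨i, hi, ?_⟩
          rw [hcc]
          have h2 : cc i (step e D) ≤ cc i D := by
            rw [step_ge he]
            obtain ⟨j, hj, hej, hji⟩ := hex
            rcases del_cases e D with ⟨h3, _⟩ | ⟨m, hm, hem, hmin, h3⟩
            · have := h3 j hj
              omega
            · rw [h3]
              have hmj := hmin j hj hej
              unfold cc
              have h4 : (insert e (D.erase m)).filter (fun j => j < i) ⊆
                  insert e ((D.filter (fun j => j < i)).erase m) := by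
                intro x hx
                simp only [mem_filter, mem_erase, mem_insert] at hx ⊢
                tauto
              have h5 : m ∈ D.filter (fun j => j < i) := mem_filter.2 ⟨hm, by omega⟩
              have h6 := card_erase_add_one h5
              have h7 := card_le_card h4
              have h8 := card_insert_le e ((D.filter (fun j => j < i)).erase m)
              omega
          have h3 := lis_le_cons i e v
          omega
        · right
          refine ⟨e, he, ?_⟩
          push Not at hex
          have h2 : cc i (step e D) ≤ 1 + cc e D := by
            rw [step_ge he]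
            unfold cc
            have h4 : (insert e (del e D)).filter (fun j => j < i) ⊆
                insert e (D.filter (fun j => j < e)) := by
              intro x hx
              rw [mem_filter, mem_insert] at hx
              rw [mem_insert, mem_filter]
              rcases hx with ⟨rfl | h5, h6⟩
              · exact Or.inl rfl
              · right
                refine ⟨del_subset _ _ h5, ?_⟩
                by_contra hcon
                have := hex x (del_subset _ _ h5) (by omega)
                omega
            have h7 := card_le_card h4
            have h8 := card_insert_le e (D.filter (fun j => j < e))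
            omega
          have h3 : 1 + lis (e + 1) v ≤ lis e (e :: v) := by
            rw [lis_cons_ge le_rfl]
            exact le_max_right _ _
          have h4 : lis i v ≤ lis (e + 1) v := lis_anti (by omega) v
          show v.count 1 + 0 + (run (step e D) v).card ≤ cc e D + lis e (e :: v)
          omega

end Pool.Agent.Q53.IS
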